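import Mathlib

/-!
# The game of cops and attacking robber, and grids
-/

set_option autoImplicit false

namespace Pool.Agent.Lib.MP_cd85a3_co

/-- A move of the team of cops: each cop still in the game (`some v`) stays put or moves to an
adjacent vertex; a removed cop (`none`) stays removed. -/
def CopStep {V : Type*} (G : SimpleGraph V) {k : ℕ} (c c' : Fin k → Option V) : Prop :=
  ∀ i, c' i = c i ∨ ∃ u v, c i = some u ∧ c' i = some v ∧ G.Adj u v

/-- `CopsWin G c r`: with the cops at `c`, the robber at `r` and the cops to move, the cops can
force a win. Either they can occupy the robber's vertex at once, or they have a move after which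
they can force a win whatever the robber does: staying put, moving to a vertex without a cop, or
moving onto a vertex holding exactly one cop, which is then removed. (If he moves onto a vertex
holding two or more cops, he is captured.) -/
inductive CopsWin {V : Type*} (G : SimpleGraph V) {k : ℕ} : (Fin k → Option V) → V → Prop
  | capture {c c' : Fin k → Option V} {r : V} {i : Fin k} (hstep : CopStep G c c')
      (hi : c' i = some r) : CopsWin G c r
  | round {c c' : Fin k → Option V} {r : V} (hstep : CopStep G c c')
      (stay : CopsWin G c' r)
      (move : ∀ r', G.Adj r r' → (∀ i, c' i ≠ some r') → CopsWin G c' r')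
      (attack : ∀ r' i, G.Adj r r' → c' i = some r' → (∀ j, c' j = some r' → j = i) →
        CopsWin G (Function.update c' i none) r') : CopsWin G c r

/-- The attacking cop number: the least `k` such that `k` cops can be placed so that they win
wherever the robber starts, the cops moving first. -/
noncomputable def attackingCopNumber {V : Type*} (G : SimpleGraph V) : ℕ :=
  sInf {k : ℕ | ∃ c : Fin k → V, ∀ r, CopsWin G (fun i => some (c i)) r}

/-- The grid `P_{m 0} □ ⋯ □ P_{m (n-1)}`: the vertices are the points with `i`-th coordinate in
`{0, …, m i - 1}`, two of them being adjacent when they differ by `1` in exactly one coordinate. -/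
def grid {n : ℕ} (m : Fin n → ℕ) : SimpleGraph ((i : Fin n) → Fin (m i)) where
  Adj x y := ∃ i, ((x i : ℕ) + 1 = y i ∨ (y i : ℕ) + 1 = x i) ∧ ∀ j, j ≠ i → x j = y j
  symm := ⟨fun _ _ ⟨i, h, h'⟩ => ⟨i, h.symm, fun j hj => (h' j hj).symm⟩⟩
  loopless := ⟨fun x ⟨i, h, _⟩ => by omega⟩

end Pool.Agent.Lib.MP_cd85a3_co
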