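import Mathlib
import Pool.Agent.Lib.MP_cd85a3_co.Def

/-!
# Distances and moves in grids
-/

set_option autoImplicit false

namespace Pool.Agent.Lib.MP_cd85a3_co

open Finset

variable {n : ℕ} {m : Fin n → ℕ}

/-- vertices of the grid -/
abbrev Vtx (m : Fin n → ℕ) := (i : Fin n) → Fin (m i)

lemma exists_vertex (x : Fin n → ℤ) (hx : ∀ i, 0 ≤ x i ∧ x i < m i) :
    ∃ v : Vtx m, ∀ i, ((v i : ℕ) : ℤ) = x i := by
  refine ⟨fun i => ⟨(x i).toNat, ?_⟩, fun i => ?_⟩
  · have := hx i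
    omega
  · have := hx i
    simp only
    omega

lemma vtx_ext {x y : Vtx m} (h : ∀ i, ((x i : ℕ) : ℤ) = y i) : x = y := by
  funext i
  apply Fin.ext
  have := h i
  omega

lemma adj_iff {x y : Vtx m} : (grid m).Adj x y ↔
    ∃ j, (((x j : ℕ) : ℤ) - y j).natAbs = 1 ∧ ∀ i, i ≠ j → ((x i : ℕ) : ℤ) = y i := by
  constructor
  · rintro ⟨j, h1, h2⟩
    exact ⟨j, by omega, fun i hi => by rw [h2 i hi]⟩
  · rintro ⟨j, h1, h2⟩
    refine ⟨j, by omega, fun i hi => ?_⟩
    apply Fin.ext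
    have := h2 i hi
    omega

/-- graph distance in the grid -/
def dd (x y : Vtx m) : ℕ := ∑ i, (((x i : ℕ) : ℤ) - y i).natAbs

lemma sum_change {f f' : Fin n → ℕ} (j : Fin n) (h : ∀ i, i ≠ j → f i = f' i) :
    ∑ i, f i + f' j = ∑ i, f' i + f j := by
  rw [← Finset.add_sum_erase _ f (Finset.mem_univ j), ← Finset.add_sum_erase _ f' (Finset.mem_univ j)]
  have : ∑ x ∈ Finset.univ.erase j, f x = ∑ x ∈ Finset.univ.erase j, f' x :=
    Finset.sum_congr rfl fun i hi => h i (Finset.ne_of_mem_erase hi)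
  omega

lemma natAbs_le_dd (x y : Vtx m) (j : Fin n) : (((x j : ℕ) : ℤ) - y j).natAbs ≤ dd x y :=
  Finset.single_le_sum (f := fun i => (((x i : ℕ) : ℤ) - y i).natAbs) (fun _ _ => Nat.zero_le _)
    (Finset.mem_univ j)

lemma dd_eq_zero {x y : Vtx m} (h : dd x y = 0) : x = y := by
  apply vtx_ext
  intro i
  have := natAbs_le_dd x y i
  omega

lemma adj_of_dd {x y : Vtx m} (h : dd x y = 1) : (grid m).Adj x y := by
  rw [adj_iff]
  obtain ⟨j, hj⟩ : ∃ j, (((x j : ℕ) : ℤ) - y j).natAbs ≠ 0 := by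
    by_contra hcon
    push Not at hcon
    have : dd x y = 0 := Finset.sum_eq_zero fun i _ => hcon i
    omega
  have h1 := natAbs_le_dd x y j
  refine ⟨j, by omega, fun i hi => ?_⟩
  by_contra hne
  have h2 : (((x j : ℕ) : ℤ) - y j).natAbs + (((x i : ℕ) : ℤ) - y i).natAbs ≤ dd x y := by
    unfold dd
    rw [← Finset.add_sum_erase _ _ (Finset.mem_univ j)]
    have := Finset.single_le_sum (f := fun i => (((x i : ℕ) : ℤ) - y i).natAbs)
      (s := Finset.univ.erase j) (fun _ _ => Nat.zero_le _) (Finset.mem_erase.2 ⟨hi, Finset.mem_univ i⟩)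
    omega
  omega

lemma dd_of_adj {x y : Vtx m} (h : (grid m).Adj x y) : dd x y = 1 := by
  obtain ⟨j, h1, h2⟩ := adj_iff.1 h
  have := sum_change (f := fun i => (((x i : ℕ) : ℤ) - y i).natAbs)
    (f' := fun i => if i = j then 1 else 0) j (fun i hi => by
      simp only [hi, if_false]
      have := h2 i hi
      omega)
  simp only [if_true, Finset.sum_ite_eq', Finset.mem_univ] at this
  unfold dd
  omega

/-- the robber's move in coordinates -/
lemma adj_coord {r r' : Vtx m} (h : (grid m).Adj r r') : ∃ (j : Fin n) (s : ℤ), (s = 1 ∨ s = -1) ∧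
    ((r' j : ℕ) : ℤ) = r j + s ∧ ∀ i, i ≠ j → ((r' i : ℕ) : ℤ) = r i := by
  obtain ⟨j, h1, h2⟩ := adj_iff.1 h
  exact ⟨j, (r' j : ℤ) - r j, by omega, by omega, fun i hi => (h2 i hi).symm⟩

/-- change of the distance by a move of the robber -/
lemma dd_move {r r' : Vtx m} {j : Fin n} (hj : ∀ i, i ≠ j → ((r' i : ℕ) : ℤ) = r i) (g : Vtx m) :
    dd g r + (((g j : ℕ) : ℤ) - r' j).natAbs = dd g r' + (((g j : ℕ) : ℤ) - r j).natAbs :=
  sum_change (f := fun i => (((g i : ℕ) : ℤ) - r i).natAbs)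
    (f' := fun i => (((g i : ℕ) : ℤ) - r' i).natAbs) j (fun i hi => by rw [hj i hi])

/-- the effect of a change of one coordinate of the first argument -/
lemma dd_change {x x' : Vtx m} {l : Fin n} (hl : ∀ i, i ≠ l → ((x' i : ℕ) : ℤ) = x i) (r : Vtx m) :
    dd x r + (((x' l : ℕ) : ℤ) - r l).natAbs = dd x' r + (((x l : ℕ) : ℤ) - r l).natAbs :=
  sum_change (f := fun i => (((x i : ℕ) : ℤ) - r i).natAbs)
    (f' := fun i => (((x' i : ℕ) : ℤ) - r i).natAbs) l (fun i hi => by rw [hl i hi])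

/-- a step toward `r` in coordinate `l` -/
lemma exists_toward (g r : Vtx m) (l : Fin n) (hl : ((g l : ℕ) : ℤ) ≠ r l) :
    ∃ g' : Vtx m, (grid m).Adj g g' ∧ (∀ i, i ≠ l → ((g' i : ℕ) : ℤ) = g i) ∧
      (((g' l : ℕ) : ℤ) - r l).natAbs + 1 = (((g l : ℕ) : ℤ) - r l).natAbs ∧ dd g' r + 1 = dd g r := by
  classical
  obtain ⟨g', hg'⟩ := exists_vertex (m := m)
    (fun i => if i = l then (if ((g l : ℕ) : ℤ) < r l then (g l : ℤ) + 1 else (g l : ℤ) - 1) else g i) (by
      intro i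
      have h1 := (g i).isLt
      have h2 := (r l).isLt
      have h3 := (g l).isLt
      by_cases hi : i = l
      · subst hi
        simp only [if_true]
        split_ifs <;> omega
      · simp only [hi, if_false]; omega)
  have h0 : ∀ i, i ≠ l → ((g' i : ℕ) : ℤ) = g i := fun i hi => by rw [hg' i]; simp [hi]
  have h1 := hg' l
  simp only [if_true] at h1
  have h2 := dd_change h0 r
  have h3 : (((g' l : ℕ) : ℤ) - r l).natAbs + 1 = (((g l : ℕ) : ℤ) - r l).natAbs := by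
    rw [h1]; split_ifs <;> omega
  refine ⟨g', ?_, h0, h3, by omega⟩
  rw [adj_iff]
  refine ⟨l, ?_, fun i hi => (h0 i hi).symm⟩
  rw [h1]; split_ifs <;> omega

/-- following the robber -/
lemma exists_follow {r r' : Vtx m} {j : Fin n} {s : ℤ} (hs : s = 1 ∨ s = -1)
    (hj : ((r' j : ℕ) : ℤ) = r j + s) (hi : ∀ i, i ≠ j → ((r' i : ℕ) : ℤ) = r i) (g : Vtx m)
    (hg : s * (((g j : ℕ) : ℤ) - r j) ≤ 0) :
    ∃ g' : Vtx m, (grid m).Adj g g' ∧ ∀ i, ((g' i : ℕ) : ℤ) = g i + (r' i - r i) := by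
  obtain ⟨g', hg'⟩ := exists_vertex (m := m) (fun i => (g i : ℤ) + (r' i - r i)) (by
    intro i
    have h1 := (g i).isLt
    by_cases hij : i = j
    · subst hij
      have h2 := (r' i).isLt
      rcases hs with rfl | rfl <;> constructor <;> omega
    · rw [hi i hij]; omega)
  refine ⟨g', ?_, hg'⟩
  rw [adj_iff]
  refine ⟨j, ?_, fun i hij => ?_⟩
  · rw [hg' j, hj]; rcases hs with rfl | rfl <;> omega
  · rw [hg' i, hi i hij]; ring

/-- differences are preserved when both endpoints are translated -/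
lemma dd_translate {x y x' y' : Vtx m} {t : Fin n → ℤ} (hx : ∀ i, ((x' i : ℕ) : ℤ) = x i + t i)
    (hy : ∀ i, ((y' i : ℕ) : ℤ) = y i + t i) : dd x' y' = dd x y := by
  unfold dd
  apply Finset.sum_congr rfl
  intro i _
  rw [hx i, hy i]
  congr 1
  ring

end Pool.Agent.Lib.MP_cd85a3_co
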