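import Mathlib
import Pool.Agent.Lib.MP_cd85a3_co.Geom

/-!
# The robber evades few cops
-/

set_option autoImplicit false

namespace Pool.Agent.Lib.MP_cd85a3_co

open Finset

/-- No cop is on or next to the robber's vertex. -/
def Safe {V : Type*} (G : SimpleGraph V) {k : ℕ} (c : Fin k → Option V) (r : V) : Prop :=
  ∀ i v, c i = some v → v ≠ r ∧ ¬ G.Adj v r

variable {n k : ℕ} {m : Fin n → ℕ}

lemma exists_neighbour (hm : ∀ i, 2 ≤ m i) (r : Vtx m) (j : Fin n) :
    ∃ (u : Vtx m) (s : ℤ), (s = 1 ∨ s = -1) ∧ ((u j : ℕ) : ℤ) = r j + s ∧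
      ∀ i, i ≠ j → ((u i : ℕ) : ℤ) = r i := by
  classical
  have hj := hm j
  have hr := (r j).isLt
  obtain ⟨s, hs, hs2⟩ : ∃ s : ℤ, (s = 1 ∨ s = -1) ∧ 0 ≤ ((r j : ℕ) : ℤ) + s ∧
      ((r j : ℕ) : ℤ) + s < m j := by
    rcases Nat.eq_zero_or_pos (r j : ℕ) with h0 | h0
    · exact ⟨1, Or.inl rfl, by omega, by omega⟩
    · exact ⟨-1, Or.inr rfl, by omega, by omega⟩
  obtain ⟨u, hu⟩ := exists_vertex (m := m) (fun i => if i = j then (r j : ℤ) + s else r i) (by
    intro i
    by_cases hi : i = j
    · subst hi; simpa using hs2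
    · have := (r i).isLt
      simp only [hi, if_false]; omega)
  exact ⟨u, s, hs, by rw [hu j]; simp, fun i hi => by rw [hu i]; simp [hi]⟩

/-- If the cops are few and none is on the robber's vertex, the robber has a safe option. -/
lemma exists_option (hm : ∀ i, 2 ≤ m i) (hk : k ≤ (n + 1) / 2)
    (c : Fin k → Option (Vtx m)) (r : Vtx m) (hno : ∀ i, c i ≠ some r) :
    Safe (grid m) c r ∨
    (∃ r', (grid m).Adj r r' ∧ (∀ i, c i ≠ some r') ∧ Safe (grid m) c r') ∨
    ∃ r' i, (grid m).Adj r r' ∧ c i = some r' ∧ (∀ j, c j = some r' → j = i) ∧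
      Safe (grid m) (Function.update c i none) r' := by
  classical
  by_contra hcon
  rw [not_or, not_or] at hcon
  obtain ⟨h1, h2, h3⟩ := hcon
  unfold Safe at h1
  push Not at h1
  obtain ⟨i0, v0, hv0, hv1⟩ := h1
  have hv2 : (grid m).Adj v0 r := hv1 (fun he => hno i0 (he ▸ hv0))
  have hv3 := dd_of_adj hv2
  -- the threatening cop of each coordinate
  have key : ∀ j : Fin n, ∃ x : Fin k, x ≠ i0 ∧ ∃ w : Vtx m, c x = some w ∧
      ((w j : ℕ) : ℤ) ≠ r j ∧ dd w r ≤ 2 := by
    intro j
    obtain ⟨u, s, hs, huj, hu⟩ := exists_neighbour hm r j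
    have hadj : (grid m).Adj r u := by
      rw [adj_iff]
      refine ⟨j, ?_, fun i hi => (hu i hi).symm⟩
      rw [huj]; rcases hs with rfl | rfl <;> omega
    have haux : ∀ (x : Fin k) (w : Vtx m), c x = some w → (grid m).Adj w u →
        x ≠ i0 ∧ ((w j : ℕ) : ℤ) ≠ r j ∧ dd w r ≤ 2 := by
      intro x w hx hwu
      have e1 := dd_move (r := r) (r' := u) hu w
      have e2 := dd_of_adj hwu
      have e3 := natAbs_le_dd w u j
      have e4 : (((w j : ℕ) : ℤ) - u j).natAbs ≤ (((w j : ℕ) : ℤ) - r j).natAbs + 1 := by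
        rw [huj]; rcases hs with rfl | rfl <;> omega
      have e5 : (((w j : ℕ) : ℤ) - r j).natAbs ≤ (((w j : ℕ) : ℤ) - u j).natAbs + 1 := by
        rw [huj]; rcases hs with rfl | rfl <;> omega
      refine ⟨?_, ?_, by omega⟩
      · rintro rfl
        rw [hv0] at hx
        have hwv : v0 = w := Option.some.inj hx
        subst hwv
        rw [huj] at e1
        rcases hs with rfl | rfl <;> omega
      · intro he
        have e6 : (((w j : ℕ) : ℤ) - u j).natAbs = 1 := by
          rw [huj, he]; rcases hs with rfl | rfl <;> omega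
        have e7 : dd w r = 0 := by
          have e8 : (((w j : ℕ) : ℤ) - r j).natAbs = 0 := by rw [he]; simp
          omega
        exact hno x (by rw [hx, dd_eq_zero e7])
    by_cases hocc : ∃ i, c i = some u
    · obtain ⟨i, hi⟩ := hocc
      by_cases huniq : ∀ i', c i' = some u → i' = i
      · have hns : ¬ Safe (grid m) (Function.update c i none) u := fun hs =>
          h3 ⟨u, i, hadj, hi, huniq, hs⟩
        unfold Safe at hns
        push Not at hns
        obtain ⟨x, w, hx, hw⟩ := hns
        have hxi : x ≠ i := by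
          rintro rfl
          simp at hx
        rw [Function.update_of_ne hxi] at hx
        have hwu : (grid m).Adj w u := hw (fun he => hxi (huniq x (he ▸ hx)))
        obtain ⟨a1, a2, a3⟩ := haux x w hx hwu
        exact ⟨x, a1, w, hx, a2, a3⟩
      · push Not at huniq
        obtain ⟨i', hi', hne⟩ := huniq
        have hur : ((u j : ℕ) : ℤ) ≠ r j := by
          rw [huj]; rcases hs with rfl | rfl <;> omega
        have hdu : dd u r ≤ 2 := by
          have := dd_of_adj hadj.symm
          omega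
        by_cases hii : i = i0
        · exact ⟨i', fun he => hne (he.trans hii.symm), u, hi', hur, hdu⟩
        · exact ⟨i, hii, u, hi, hur, hdu⟩
    · push Not at hocc
      have hns : ¬ Safe (grid m) c u := fun hs => h2 ⟨u, hadj, hocc, hs⟩
      unfold Safe at hns
      push Not at hns
      obtain ⟨x, w, hx, hw⟩ := hns
      have hwu : (grid m).Adj w u := hw (fun he => hocc x (he ▸ hx))
      obtain ⟨a1, a2, a3⟩ := haux x w hx hwu
      exact ⟨x, a1, w, hx, a2, a3⟩
  choose φ hφ1 hφ2 using key
  have hfib : ∀ x ∈ Finset.univ.image φ, (Finset.univ.filter (fun j => φ j = x)).card ≤ 2 := by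
    intro x hx
    obtain ⟨j0, _, hj0⟩ := Finset.mem_image.1 hx
    obtain ⟨w, hw1, _, hw3⟩ := hφ2 j0
    rw [hj0] at hw1
    calc (Finset.univ.filter (fun j => φ j = x)).card
        = ∑ j ∈ Finset.univ.filter (fun j => φ j = x), 1 := by simp
      _ ≤ ∑ j ∈ Finset.univ.filter (fun j => φ j = x), (((w j : ℕ) : ℤ) - r j).natAbs := by
          apply Finset.sum_le_sum
          intro j hj
          have hj' : φ j = x := (Finset.mem_filter.1 hj).2
          obtain ⟨w', hw'1, hw'2, _⟩ := hφ2 j
          rw [hj', hw1] at hw'1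
          have : w = w' := Option.some.inj hw'1
          subst this
          omega
      _ ≤ dd w r := Finset.sum_le_sum_of_subset (Finset.filter_subset _ _)
      _ ≤ 2 := hw3
  have hcard := Finset.card_le_mul_card_image (f := φ) (s := Finset.univ) 2 (by
    intro x hx
    exact hfib x hx)
  have himg : (Finset.univ.image φ).card ≤ k - 1 := by
    have : Finset.univ.image φ ⊆ Finset.univ.erase i0 := by
      intro x hx
      obtain ⟨j, _, rfl⟩ := Finset.mem_image.1 hx
      exact Finset.mem_erase.2 ⟨hφ1 j, Finset.mem_univ _⟩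
    have h := Finset.card_le_card this
    rw [Finset.card_erase_of_mem (Finset.mem_univ _), Finset.card_univ, Fintype.card_fin] at h
    exact h
  rw [Finset.card_univ, Fintype.card_fin] at hcard
  have := i0.pos
  omega

/-- Few cops cannot win from a safe position of the robber. -/
theorem not_copsWin (hm : ∀ i, 2 ≤ m i) (hk : k ≤ (n + 1) / 2)
    {c : Fin k → Option (Vtx m)} {r : Vtx m} (h : CopsWin (grid m) c r) :
    ¬ Safe (grid m) c r := by
  induction h with
  | @capture c c' r i hstep hi =>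
    intro hsafe
    rcases hstep i with h1 | ⟨u, v, h1, h2, h3⟩
    · exact (hsafe i r (h1 ▸ hi)).1 rfl
    · rw [hi] at h2
      exact (hsafe i u h1).2 (Option.some.inj h2 ▸ h3)
  | @round c c' r hstep stay move attack ih1 ih2 ih3 =>
    intro hsafe
    have hno : ∀ i, c' i ≠ some r := by
      intro i hi
      rcases hstep i with h1 | ⟨u, v, h1, h2, h3⟩
      · exact (hsafe i r (h1 ▸ hi)).1 rfl
      · rw [hi] at h2
        exact (hsafe i u h1).2 (Option.some.inj h2 ▸ h3)
    rcases exists_option hm hk c' r hno with h | ⟨r', h1, h2, h3⟩ | ⟨r', i, h1, h2, h3, h4⟩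
    · exact ih1 h
    · exact ih2 r' h1 h2 h3
    · exact ih3 r' i h1 h2 h3 h4

end Pool.Agent.Lib.MP_cd85a3_co
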