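import Mathlib
import Pool.Agent.Lib.MP_cd85a3_co.Geom

/-!
# The responses of the guards and the potential
-/

set_option autoImplicit false

namespace Pool.Agent.Lib.MP_cd85a3_co

open Finset

variable {n h : ℕ} {m : Fin n → ℕ}

/-- total distance -/
def P1 (g : Fin h → Vtx m) (r : Vtx m) : ℕ := ∑ i, dd (g i) r

/-- number of coordinates in which all guards agree with the robber -/
def P2 (g : Fin h → Vtx m) (r : Vtx m) : ℕ :=
  (Finset.univ.filter (fun l => ∀ i, ((g i l : ℕ) : ℤ) = r l)).card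

/-- number of steps the robber at `r` can make in coordinate `l` away from `x` -/
def room (x r : Vtx m) (l : Fin n) : ℕ :=
  if ((x l : ℕ) : ℤ) = r l then 0 else if ((r l : ℕ) : ℤ) < x l then (r l : ℕ) else m l - 1 - r l

/-- total room -/
def P3 (g : Fin h → Vtx m) (r : Vtx m) : ℕ := ∑ i, ∑ l, room (g i) r l

/-- the potential -/
def meas (g : Fin h → Vtx m) (r : Vtx m) : ℕ ×ₗ (ℕ ×ₗ ℕ) :=
  toLex (P1 g r, toLex (P2 g r, P3 g r))

lemma meas_lt {g g' : Fin h → Vtx m} {r r' : Vtx m} : meas g' r' < meas g r ↔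
    P1 g' r' < P1 g r ∨ P1 g' r' = P1 g r ∧ (P2 g' r' < P2 g r ∨
      P2 g' r' = P2 g r ∧ P3 g' r' < P3 g r) := by
  unfold meas
  rw [Prod.Lex.toLex_lt_toLex, Prod.Lex.toLex_lt_toLex]

/-- The robber stays put and some guard is at distance at least `3`. -/
lemma resp_stay {g : Fin h → Vtx m} {r : Vtx m} (hg : ∀ i, 2 ≤ dd (g i) r)
    (hex : ∃ i, 3 ≤ dd (g i) r) :
    ∃ g' : Fin h → Vtx m, (∀ i, g' i = g i ∨ (grid m).Adj (g i) (g' i)) ∧
      (∀ i, 2 ≤ dd (g' i) r) ∧ meas g' r < meas g r := by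
  have key : ∀ i, ∃ x : Vtx m, (x = g i ∨ (grid m).Adj (g i) x) ∧ 2 ≤ dd x r ∧
      dd x r ≤ dd (g i) r ∧ (3 ≤ dd (g i) r → dd x r < dd (g i) r) := by
    intro i
    by_cases h3 : 3 ≤ dd (g i) r
    · obtain ⟨l, hl⟩ : ∃ l, ((g i l : ℕ) : ℤ) ≠ r l := by
        by_contra hcon
        push Not at hcon
        have : dd (g i) r = 0 := Finset.sum_eq_zero fun l _ => by rw [hcon l]; simp
        omega
      obtain ⟨x, hx1, _, _, hx2⟩ := exists_toward (g i) r l hl
      exact ⟨x, Or.inr hx1, by omega, by omega, by omega⟩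
    · exact ⟨g i, Or.inl rfl, hg i, le_rfl, fun h => absurd h h3⟩
  choose g' h1 h2 h3 h4 using key
  refine ⟨g', h1, h2, meas_lt.2 (Or.inl ?_)⟩
  obtain ⟨i, hi⟩ := hex
  exact Finset.sum_lt_sum (fun i _ => h3 i) ⟨i, Finset.mem_univ i, h4 i hi⟩

variable {r r' : Vtx m} {j : Fin n} {s : ℤ}

/-- The robber moves toward some guard. -/
lemma resp_toward {g : Fin h → Vtx m} (hg : ∀ i, 2 ≤ dd (g i) r) (hs : s = 1 ∨ s = -1)
    (hj : ((r' j : ℕ) : ℤ) = r j + s) (hi : ∀ i, i ≠ j → ((r' i : ℕ) : ℤ) = r i)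
    (h1 : ∀ i, dd (g i) r' ≠ 1) (hex : ∃ i, 0 < s * (((g i j : ℕ) : ℤ) - r j)) :
    ∃ g' : Fin h → Vtx m, (∀ i, g' i = g i ∨ (grid m).Adj (g i) (g' i)) ∧
      (∀ i, 2 ≤ dd (g' i) r') ∧ meas g' r' < meas g r := by
  have key : ∀ i, ∃ x : Vtx m, (x = g i ∨ (grid m).Adj (g i) x) ∧ 2 ≤ dd x r' ∧
      dd x r' ≤ dd (g i) r ∧ (0 < s * (((g i j : ℕ) : ℤ) - r j) → dd x r' < dd (g i) r) := by
    intro i
    by_cases h3 : 0 < s * (((g i j : ℕ) : ℤ) - r j)
    · have h4 := dd_move hi (g i)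
      have h5 := h1 i
      have h6 := hg i
      have h7 : (((g i j : ℕ) : ℤ) - r' j).natAbs + 1 = (((g i j : ℕ) : ℤ) - r j).natAbs := by
        rw [hj]; rcases hs with rfl | rfl <;> omega
      exact ⟨g i, Or.inl rfl, by omega, by omega, by omega⟩
    · obtain ⟨x, hx1, hx2⟩ := exists_follow hs hj hi (g i) (not_lt.1 h3)
      have h4 : dd x r' = dd (g i) r :=
        dd_translate (t := fun i => ((r' i : ℕ) : ℤ) - r i) hx2 (fun i => by ring)
      exact ⟨x, Or.inr hx1, by rw [h4]; exact hg i, by omega, fun h => absurd h h3⟩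
  choose g' h1 h2 h3 h4 using key
  refine ⟨g', h1, h2, meas_lt.2 (Or.inl ?_)⟩
  obtain ⟨i, hi⟩ := hex
  exact Finset.sum_lt_sum (fun i _ => h3 i) ⟨i, Finset.mem_univ i, h4 i hi⟩

/-- The robber moves away from the guards, in a coordinate in which some guard differs. -/
lemma resp_follow {g : Fin h → Vtx m} (hs : s = 1 ∨ s = -1)
    (hj : ((r' j : ℕ) : ℤ) = r j + s) (hi : ∀ i, i ≠ j → ((r' i : ℕ) : ℤ) = r i)
    (haway : ∀ i, s * (((g i j : ℕ) : ℤ) - r j) ≤ 0) (hex : ∃ i, ((g i j : ℕ) : ℤ) ≠ r j) :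
    ∃ g' : Fin h → Vtx m, (∀ i, (grid m).Adj (g i) (g' i)) ∧
      (∀ i l, ((g' i l : ℕ) : ℤ) = g i l + (r' l - r l)) ∧ meas g' r' < meas g r := by
  choose g' h1 h2 using fun i => exists_follow hs hj hi (g i) (haway i)
  refine ⟨g', h1, h2, meas_lt.2 (Or.inr ⟨?_, Or.inr ⟨?_, ?_⟩⟩)⟩
  · exact Finset.sum_congr rfl fun i _ =>
      dd_translate (t := fun i => ((r' i : ℕ) : ℤ) - r i) (h2 i) (fun i => by ring)
  · unfold P2
    congr 1
    ext l
    simp only [Finset.mem_filter, Finset.mem_univ, true_and]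
    constructor
    · intro h i
      have := h i
      rw [h2 i l] at this
      omega
    · intro h i
      rw [h2 i l, h i]
      ring
  · have hle : ∀ i l, room (g' i) r' l ≤ room (g i) r l := by
      intro i l
      unfold room
      rw [h2 i l]
      have hlt := (r' l).isLt
      by_cases hl : l = j
      · subst hl
        have h3 := haway i
        have hlt2 : ((r' l : ℕ) : ℤ) < m l := by exact_mod_cast hlt
        rcases hs with rfl | rfl <;> split_ifs <;> omega
      · have h3 := hi l hl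
        have h4 : (r' l : ℕ) = r l := by omega
        rw [h4]
        split_ifs <;> omega
    obtain ⟨i, hne⟩ := hex
    have hlt : room (g' i) r' j < room (g i) r j := by
      unfold room
      rw [h2 i j]
      have h3 := haway i
      have hlt := (r' j).isLt
      have hlt2 : ((r' j : ℕ) : ℤ) < m j := by exact_mod_cast hlt
      rcases hs with rfl | rfl <;> split_ifs <;> omega
    exact Finset.sum_lt_sum (fun i _ => Finset.sum_le_sum fun l _ => hle i l)
      ⟨i, Finset.mem_univ i, Finset.sum_lt_sum (fun l _ => hle i l) ⟨j, Finset.mem_univ j, hlt⟩⟩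

/-- The robber moves in a coordinate in which all guards agree with him; a guard with a redundant
unit of distance in coordinate `l` gives it up. -/
lemma resp_switch {g : Fin h → Vtx m} (hs : s = 1 ∨ s = -1)
    (hj : ((r' j : ℕ) : ℤ) = r j + s) (hi : ∀ i, i ≠ j → ((r' i : ℕ) : ℤ) = r i)
    (hun : ∀ i, ((g i j : ℕ) : ℤ) = r j) (i0 : Fin h) (l : Fin n) (x0 : Vtx m)
    (hx1 : (grid m).Adj (g i0) x0) (hx2 : ∀ i, i ≠ l → ((x0 i : ℕ) : ℤ) = g i0 i)
    (hx3 : (((x0 l : ℕ) : ℤ) - r l).natAbs + 1 = (((g i0 l : ℕ) : ℤ) - r l).natAbs)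
    (hred : 2 ≤ (((g i0 l : ℕ) : ℤ) - r l).natAbs ∨ ∃ i, i ≠ i0 ∧ ((g i l : ℕ) : ℤ) ≠ r l) :
    ∃ g' : Fin h → Vtx m, (∀ i, (grid m).Adj (g i) (g' i)) ∧ g' i0 = x0 ∧
      (∀ i, i ≠ i0 → ∀ l, ((g' i l : ℕ) : ℤ) = g i l + (r' l - r l)) ∧
      (∀ i, dd (g' i) r' = dd (g i) r) ∧ meas g' r' < meas g r := by
  have hlj : l ≠ j := by
    rintro rfl
    rw [hun i0] at hx3
    simp at hx3
  have key : ∀ i, ∃ x : Vtx m, (grid m).Adj (g i) x ∧ (i = i0 → x = x0) ∧
      (i ≠ i0 → ∀ l, ((x l : ℕ) : ℤ) = g i l + (r' l - r l)) := by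
    intro i
    by_cases hii : i = i0
    · subst hii
      exact ⟨x0, hx1, fun _ => rfl, fun h => absurd rfl h⟩
    · obtain ⟨x, hx1, hx2⟩ := exists_follow hs hj hi (g i) (by rw [hun i]; simp)
      exact ⟨x, hx1, fun h => absurd h hii, fun _ => hx2⟩
  choose g' h1 h2 h3 using key
  have hdd : ∀ i, dd (g' i) r' = dd (g i) r := by
    intro i
    by_cases hii : i = i0
    · subst hii
      rw [h2 i rfl]
      have e1 := dd_change hx2 r
      have e2 := dd_move hi x0
      have e3 : ((x0 j : ℕ) : ℤ) = r j := by rw [hx2 j hlj.symm, hun i]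
      have e4 : (((x0 j : ℕ) : ℤ) - r' j).natAbs = 1 := by
        rw [e3, hj]; rcases hs with rfl | rfl <;> omega
      have e5 : (((x0 j : ℕ) : ℤ) - r j).natAbs = 0 := by rw [e3]; simp
      omega
    · exact dd_translate (t := fun i => ((r' i : ℕ) : ℤ) - r i) (h3 i hii) (fun i => by ring)
  refine ⟨g', h1, h2 i0 rfl, h3, hdd, meas_lt.2 (Or.inr ⟨?_, Or.inl ?_⟩)⟩
  · exact Finset.sum_congr rfl fun i _ => hdd i
  · unfold P2
    apply Finset.card_lt_card
    rw [Finset.ssubset_iff_of_subset]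
    · refine ⟨j, by simpa using hun, ?_⟩
      simp only [Finset.mem_filter, Finset.mem_univ, true_and]
      intro hall
      have e := hall i0
      rw [h2 i0 rfl, hx2 j hlj.symm, hun i0, hj] at e
      rcases hs with rfl | rfl <;> omega
    · intro l' hl'
      simp only [Finset.mem_filter, Finset.mem_univ, true_and] at hl' ⊢
      have hl'j : l' ≠ j := by
        rintro rfl
        have e := hl' i0
        rw [h2 i0 rfl, hx2 l' hlj.symm, hun i0, hj] at e
        rcases hs with rfl | rfl <;> omega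
      have hother : ∀ i, i ≠ i0 → ((g i l' : ℕ) : ℤ) = r l' := by
        intro i hii
        have e := hl' i
        rw [h3 i hii l', hi l' hl'j] at e
        omega
      intro i
      by_cases hii : i = i0
      · subst hii
        by_cases hll : l' = l
        · subst hll
          exfalso
          have e := hl' i
          rw [h2 i rfl, hi l' hl'j] at e
          rcases hred with hred | ⟨i', hi', hne⟩
          · rw [e] at hx3
            omega
          · exact hne (hother i' hi')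
        · have e := hl' i
          rw [h2 i rfl, hi l' hl'j, hx2 l' hll] at e
          exact e
      · exact hother i hii

/-- If some coordinate is not covered, there is a redundant unit of distance. -/
lemma exists_redundant {g : Fin h → Vtx m} (hn : n ≤ 2 * h) (hg : ∀ i, 2 ≤ dd (g i) r)
    (hun : ∀ i, ((g i j : ℕ) : ℤ) = r j) :
    ∃ i0 l, ((g i0 l : ℕ) : ℤ) ≠ r l ∧
      (2 ≤ (((g i0 l : ℕ) : ℤ) - r l).natAbs ∨ ∃ i, i ≠ i0 ∧ ((g i l : ℕ) : ℤ) ≠ r l) := by
  by_contra hcon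
  push Not at hcon
  have h1 : ∀ l, ∑ i, (((g i l : ℕ) : ℤ) - r l).natAbs ≤ if l = j then 0 else 1 := by
    intro l
    split_ifs with hl
    · subst hl
      apply le_of_eq
      apply Finset.sum_eq_zero
      intro i _
      rw [hun i]; simp
    · by_cases hall : ∀ i, ((g i l : ℕ) : ℤ) = r l
      · have : ∑ i, (((g i l : ℕ) : ℤ) - r l).natAbs = 0 :=
          Finset.sum_eq_zero fun i _ => by rw [hall i]; simp
        omega
      · push Not at hall
        obtain ⟨i0, hi0⟩ := hall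
        obtain ⟨h2, h3⟩ := hcon i0 l hi0
        rw [Finset.sum_eq_single i0]
        · omega
        · intro i _ hne
          rw [h3 i hne]; simp
        · simp
  have h2 : ∑ i, dd (g i) r ≤ n - 1 := by
    unfold dd
    rw [Finset.sum_comm]
    calc ∑ l, ∑ i, (((g i l : ℕ) : ℤ) - r l).natAbs ≤ ∑ l, (if l = j then 0 else 1) :=
          Finset.sum_le_sum fun l _ => h1 l
      _ = n - 1 := by
          rw [Finset.sum_ite, Finset.sum_const_zero, zero_add, Finset.sum_const, smul_eq_mul,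
            mul_one, Finset.filter_ne', Finset.card_erase_of_mem (Finset.mem_univ j),
            Finset.card_univ, Fintype.card_fin]
  have h3 : 2 * h ≤ ∑ i, dd (g i) r := by
    calc 2 * h = ∑ _i : Fin h, 2 := by simp [mul_comm]
      _ ≤ ∑ i, dd (g i) r := Finset.sum_le_sum fun i _ => hg i
  have h4 : 0 < n := Fin.pos j
  omega

end Pool.Agent.Lib.MP_cd85a3_co
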