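import Mathlib
import Pool.Agent.Lib.MP_cd85a3_co.Resp

/-!
# The strategy of the cops
-/

set_option autoImplicit false

namespace Pool.Agent.Lib.MP_cd85a3_co

open Finset

section General

variable {V : Type*} {G : SimpleGraph V}

/-- The robber is to move and the cops can force a win. -/
def WinR (G : SimpleGraph V) {k : ℕ} (c : Fin k → Option V) (r : V) : Prop :=
  CopsWin G c r ∧ (∀ r', G.Adj r r' → (∀ i, c i ≠ some r') → CopsWin G c r') ∧
    ∀ r' i, G.Adj r r' → c i = some r' → (∀ j, c j = some r' → j = i) →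
      CopsWin G (Function.update c i none) r'

lemma CopsWin.of_winR {k : ℕ} {c c' : Fin k → Option V} {r : V} (hstep : CopStep G c c')
    (h : WinR G c' r) : CopsWin G c r :=
  .round hstep h.1 h.2.1 h.2.2

/-- the spare cop at `p` and the guards at `g` -/
def mk {h : ℕ} (p : V) (g : Fin h → V) : Fin (h + 1) → Option V :=
  Fin.cons (some p) (fun i => some (g i))

lemma mk_zero {h : ℕ} (p : V) (g : Fin h → V) : mk p g 0 = some p := rfl
lemma mk_succ {h : ℕ} (p : V) (g : Fin h → V) (i : Fin h) : mk p g i.succ = some (g i) := rfl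

lemma mk_step {h : ℕ} {p p' : V} {g g' : Fin h → V} (hp : p' = p ∨ G.Adj p p')
    (hg : ∀ i, g' i = g i ∨ G.Adj (g i) (g' i)) : CopStep G (mk p g) (mk p' g') := by
  intro i
  refine Fin.cases ?_ (fun i => ?_) i
  · rw [mk_zero, mk_zero]
    rcases hp with hp | hp
    · left; rw [hp]
    · right; exact ⟨p, p', rfl, rfl, hp⟩
  · rw [mk_succ, mk_succ]
    rcases hg i with hp | hp
    · left; rw [hp]
    · right; exact ⟨g i, g' i, rfl, rfl, hp⟩

lemma capture_guard {h : ℕ} {p : V} {g : Fin h → V} {r : V} (i : Fin h) (hi : G.Adj (g i) r) :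
    CopsWin G (mk p g) r := by
  refine CopsWin.capture (c' := mk p (Function.update g i r)) (i := i.succ) ?_ ?_
  · apply mk_step (Or.inl rfl)
    intro i'
    by_cases hii : i' = i
    · subst hii; right; simpa using hi
    · left; simp [hii]
  · rw [mk_succ]; simp

end General

variable {n h : ℕ} {m : Fin n → ℕ}

/-- The main induction. -/
theorem main_win (hn : n ≤ 2 * (h + 1)) (μ : ℕ ×ₗ (ℕ ×ₗ ℕ)) :
    ∀ (g : Fin (h + 1) → Vtx m) (r : Vtx m), meas g r = μ → (∀ i, 2 ≤ dd (g i) r) →
      WinR (grid m) (mk (g 0) g) r ∧ ∀ p, (∀ i, dd (g i) r = 2) → (grid m).Adj p r →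
        (grid m).Adj p (g 0) → WinR (grid m) (mk p g) r := by
  induction μ using WellFoundedLT.induction with
  | _ μ ih =>
  intro g r hμ hg
  have ih' : ∀ (g' : Fin (h + 1) → Vtx m) (r' : Vtx m), meas g' r' < meas g r →
      (∀ i, 2 ≤ dd (g' i) r') → WinR (grid m) (mk (g' 0) g') r' ∧
      ∀ p, (∀ i, dd (g' i) r' = 2) → (grid m).Adj p r' → (grid m).Adj p (g' 0) →
        WinR (grid m) (mk p g') r' := by
    intro g' r' hlt hg'
    exact ih (meas g' r') (hμ ▸ hlt) g' r' rfl hg'
  clear ih
  -- the position with a protected threat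
  have hY : ∀ p, (∀ i, dd (g i) r = 2) → (grid m).Adj p r → (grid m).Adj p (g 0) →
      WinR (grid m) (mk p g) r := by
    intro p hd hpr hpg
    have hdp : dd p r = 1 := dd_of_adj hpr
    refine ⟨?_, ?_, ?_⟩
    · -- the robber stays
      refine CopsWin.capture (c' := mk r g) (i := 0) (mk_step (Or.inr hpr) fun i => Or.inl rfl) rfl
    · -- the robber moves
      intro r' hadj hno
      have hpr' : p ≠ r' := fun he => hno 0 (by rw [mk_zero, he])
      by_cases h1 : ∃ i, dd (g i) r' = 1
      · obtain ⟨i, hi⟩ := h1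
        exact capture_guard i (adj_of_dd hi)
      push Not at h1
      obtain ⟨j, s, hs, hj, hi⟩ := adj_coord hadj
      have haway : ∀ i, s * (((g i j : ℕ) : ℤ) - r j) ≤ 0 := by
        intro i
        by_contra hcon
        push Not at hcon
        have e1 := dd_move hi (g i)
        have e2 : (((g i j : ℕ) : ℤ) - r' j).natAbs + 1 = (((g i j : ℕ) : ℤ) - r j).natAbs := by
          rw [hj]; rcases hs with rfl | rfl <;> omega
        have e3 := hd i
        exact h1 i (by omega)
      have hpaway : s * (((p j : ℕ) : ℤ) - r j) ≤ 0 := by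
        by_contra hcon
        push Not at hcon
        have e0 := natAbs_le_dd p r j
        have e1 := dd_move hi p
        have e2 : (((p j : ℕ) : ℤ) - r' j).natAbs + 1 = (((p j : ℕ) : ℤ) - r j).natAbs := by
          rw [hj]; rcases hs with rfl | rfl <;> omega
        exact hpr' (dd_eq_zero (by omega))
      obtain ⟨p', hp1, hp2⟩ := exists_follow hs hj hi p hpaway
      have hp'r : (grid m).Adj p' r' := adj_of_dd (by
        rw [dd_translate (x := p) (y := r) (t := fun i => ((r' i : ℕ) : ℤ) - r i) hp2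
          (fun i => by ring)]
        exact hdp)
      have hp'g : ∀ g' : Fin (h + 1) → Vtx m, (∀ l, ((g' 0 l : ℕ) : ℤ) = g 0 l + (r' l - r l)) →
          (grid m).Adj p' (g' 0) := by
        intro g' hg'
        apply adj_of_dd
        rw [dd_translate (x := p) (y := g 0) (t := fun i => ((r' i : ℕ) : ℤ) - r i) hp2 hg']
        exact dd_of_adj hpg
      by_cases hcov : ∃ i, ((g i j : ℕ) : ℤ) ≠ r j
      · obtain ⟨g', hg1, hg2, hlt⟩ := resp_follow hs hj hi haway hcov
        have hdd : ∀ i, dd (g' i) r' = 2 := fun i => by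
          rw [dd_translate (x := g i) (y := r) (t := fun i => ((r' i : ℕ) : ℤ) - r i) (hg2 i)
            (fun i => by ring)]
          exact hd i
        exact CopsWin.of_winR (mk_step (Or.inr hp1) fun i => Or.inr (hg1 i))
          ((ih' g' r' hlt fun i => (hdd i).ge).2 p' hdd hp'r (hp'g g' (hg2 0)))
      push Not at hcov
      obtain ⟨l0, hl1, hl2⟩ := adj_iff.1 hpg
      have hl2' : ∀ i, i ≠ l0 → ((p i : ℕ) : ℤ) = g 0 i := hl2
      have hl3 : (((p l0 : ℕ) : ℤ) - r l0).natAbs + 1 = (((g 0 l0 : ℕ) : ℤ) - r l0).natAbs := by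
        have e1 := dd_change hl2' r
        have e2 := hd 0
        omega
      by_cases hred0 : 2 ≤ (((g 0 l0 : ℕ) : ℤ) - r l0).natAbs ∨
          ∃ i, i ≠ 0 ∧ ((g i l0 : ℕ) : ℤ) ≠ r l0
      · obtain ⟨g', hg1, hg2, _, hg4, hlt⟩ := resp_switch hs hj hi hcov 0 l0 p hpg.symm hl2' hl3 hred0
        have := (ih' g' r' hlt fun i => by rw [hg4 i]; exact hg i).1
        rw [hg2] at this
        exact CopsWin.of_winR (mk_step (Or.inl rfl) fun i => Or.inr (hg1 i)) this
      · obtain ⟨i0, l, hne, hred⟩ := exists_redundant (by omega) hg hcov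
        obtain ⟨i1, hi1, hne1, hred1⟩ : ∃ i1, i1 ≠ 0 ∧ ((g i1 l : ℕ) : ℤ) ≠ r l ∧
            (2 ≤ (((g i1 l : ℕ) : ℤ) - r l).natAbs ∨ ∃ i, i ≠ i1 ∧ ((g i l : ℕ) : ℤ) ≠ r l) := by
          by_cases hi0 : i0 = 0
          · subst hi0
            rcases hred with hred | ⟨i, hii, hil⟩
            · exfalso
              have hll : l = l0 := by
                by_contra hcon
                have e1 : (((g 0 l : ℕ) : ℤ) - r l).natAbs + (((g 0 l0 : ℕ) : ℤ) - r l0).natAbs ≤
                    dd (g 0) r := by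
                  unfold dd
                  rw [← Finset.add_sum_erase _ _ (Finset.mem_univ l)]
                  have := Finset.single_le_sum (f := fun i => (((g 0 i : ℕ) : ℤ) - r i).natAbs)
                    (s := Finset.univ.erase l) (fun _ _ => Nat.zero_le _)
                    (Finset.mem_erase.2 ⟨Ne.symm hcon, Finset.mem_univ l0⟩)
                  omega
                have e2 := hd 0
                omega
              exact hred0 (Or.inl (hll ▸ hred))
            · exact ⟨i, hii, hil, Or.inr ⟨0, hii.symm, hne⟩⟩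
          · exact ⟨i0, hi0, hne, hred⟩
        obtain ⟨x0, hx1, hx2, hx3, _⟩ := exists_toward (g i1) r l hne1
        obtain ⟨g', hg1, hg2, hg3, hg4, hlt⟩ := resp_switch hs hj hi hcov i1 l x0 hx1 hx2 hx3 hred1
        have hdd : ∀ i, dd (g' i) r' = 2 := fun i => by rw [hg4 i]; exact hd i
        exact CopsWin.of_winR (mk_step (Or.inr hp1) fun i => Or.inr (hg1 i))
          ((ih' g' r' hlt fun i => (hdd i).ge).2 p' hdd hp'r (hp'g g' (hg3 0 hi1.symm)))
    · -- the robber attacks
      intro r' i hadj
      refine Fin.cases ?_ (fun i => ?_) i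
      · intro hr' _
        rw [mk_zero] at hr'
        have hr'' : p = r' := Option.some.inj hr'
        subst hr''
        refine CopsWin.capture (c' := Function.update (Function.update (mk p g) 0 none)
          (Fin.succ 0) (some p)) (i := Fin.succ 0) ?_ (by simp)
        intro i
        by_cases hi : i = Fin.succ 0
        · subst hi
          right
          refine ⟨g 0, p, ?_, by simp, hpg.symm⟩
          rw [Function.update_of_ne (Fin.succ_ne_zero 0)]
          rfl
        · left
          rw [Function.update_of_ne hi]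
      · intro hr' _
        exfalso
        rw [mk_succ] at hr'
        have hr'' : g i = r' := Option.some.inj hr'
        have := dd_of_adj (hr'' ▸ hadj.symm : (grid m).Adj (g i) r)
        have := hd i
        omega
  refine ⟨⟨?_, ?_, ?_⟩, hY⟩
  · -- the robber stays
    by_cases h3 : ∃ i, 3 ≤ dd (g i) r
    · obtain ⟨g', hg1, hg2, hlt⟩ := resp_stay hg h3
      exact CopsWin.of_winR (mk_step (hg1 0) hg1) (ih' g' r hlt hg2).1
    · push Not at h3
      have hd : ∀ i, dd (g i) r = 2 := fun i => by
        have := hg i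
        have := h3 i
        omega
      obtain ⟨l, hl⟩ : ∃ l, ((g 0 l : ℕ) : ℤ) ≠ r l := by
        by_contra hcon
        push Not at hcon
        have : dd (g 0) r = 0 := Finset.sum_eq_zero fun l _ => by rw [hcon l]; simp
        have := hd 0
        omega
      obtain ⟨p, hp1, _, _, hp2⟩ := exists_toward (g 0) r l hl
      have hpr : (grid m).Adj p r := adj_of_dd (by have := hd 0; omega)
      exact CopsWin.of_winR (mk_step (Or.inr hp1) fun i => Or.inl rfl) (hY p hd hpr hp1.symm)
  · -- the robber moves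
    intro r' hadj _
    by_cases h1 : ∃ i, dd (g i) r' = 1
    · obtain ⟨i, hi⟩ := h1
      exact capture_guard i (adj_of_dd hi)
    push Not at h1
    obtain ⟨j, s, hs, hj, hi⟩ := adj_coord hadj
    by_cases htow : ∃ i, 0 < s * (((g i j : ℕ) : ℤ) - r j)
    · obtain ⟨g', hg1, hg2, hlt⟩ := resp_toward hg hs hj hi h1 htow
      exact CopsWin.of_winR (mk_step (hg1 0) hg1) (ih' g' r' hlt hg2).1
    push Not at htow
    by_cases hcov : ∃ i, ((g i j : ℕ) : ℤ) ≠ r j
    · obtain ⟨g', hg1, hg2, hlt⟩ := resp_follow hs hj hi htow hcov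
      have hdd : ∀ i, 2 ≤ dd (g' i) r' := fun i => by
        rw [dd_translate (x := g i) (y := r) (t := fun i => ((r' i : ℕ) : ℤ) - r i) (hg2 i)
          (fun i => by ring)]
        exact hg i
      exact CopsWin.of_winR (mk_step (Or.inr (hg1 0)) fun i => Or.inr (hg1 i))
        (ih' g' r' hlt hdd).1
    push Not at hcov
    obtain ⟨i0, l, hne, hred⟩ := exists_redundant (by omega) hg hcov
    obtain ⟨x0, hx1, hx2, hx3, _⟩ := exists_toward (g i0) r l hne
    obtain ⟨g', hg1, _, _, hg4, hlt⟩ := resp_switch hs hj hi hcov i0 l x0 hx1 hx2 hx3 hred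
    exact CopsWin.of_winR (mk_step (Or.inr (hg1 0)) fun i => Or.inr (hg1 i))
      (ih' g' r' hlt fun i => by rw [hg4 i]; exact hg i).1
  · -- the robber cannot attack
    intro r' i hadj hr'
    exfalso
    obtain ⟨i', hi'⟩ : ∃ i', g i' = r' := by
      revert hr'
      refine Fin.cases ?_ (fun i => ?_) i
      · intro hr'
        exact ⟨0, Option.some.inj (by simpa [mk_zero] using hr')⟩
      · intro hr'
        exact ⟨i, Option.some.inj (by simpa [mk_succ] using hr')⟩
    have := dd_of_adj (hi' ▸ hadj.symm : (grid m).Adj (g i') r)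
    have := hg i'
    omega

/-- `h + 2` cops win on an `n`-dimensional grid when `n ≤ 2 (h + 1)`. -/
theorem upper (hn : n ≤ 2 * (h + 1)) (v0 : Vtx m) (r : Vtx m) :
    CopsWin (grid m) (fun _ : Fin (h + 1 + 1) => some v0) r := by
  have hmk : (fun _ : Fin (h + 1 + 1) => some v0) = mk v0 (fun _ : Fin (h + 1) => v0) := by
    funext i
    refine Fin.cases rfl (fun i => rfl) i
  rcases Nat.lt_or_ge (dd v0 r) 2 with hlt | hge
  · rcases Nat.lt_or_ge (dd v0 r) 1 with h0 | h1
    · have : v0 = r := dd_eq_zero (by omega)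
      subst this
      exact CopsWin.capture (i := 0) (fun i => Or.inl rfl) rfl
    · rw [hmk]
      exact capture_guard (g := fun _ : Fin (h + 1) => v0) 0 (adj_of_dd (by omega))
  · rw [hmk]
    exact CopsWin.of_winR (mk_step (Or.inl rfl) fun i => Or.inl rfl)
      (main_win hn _ (fun _ => v0) r rfl fun _ => hge).1

end Pool.Agent.Lib.MP_cd85a3_co
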