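import Mathlib
import Pool.Agent.Lib.MP_cd85a3_co.Evade
import Pool.Agent.Lib.MP_cd85a3_co.Strategy

/-!
# A safe starting vertex, and the value of the attacking cop number
-/

set_option autoImplicit false

namespace Pool.Agent.Lib.MP_cd85a3_co

open Finset

instance {n : ℕ} (m : Fin n → ℕ) : DecidableRel (grid m).Adj := fun x y =>
  inferInstanceAs (Decidable (∃ i, ((x i : ℕ) + 1 = y i ∨ (y i : ℕ) + 1 = x i) ∧
    ∀ j, j ≠ i → x j = y j))

/-- Some vertex is neither occupied by nor adjacent to any of `k` given vertices. -/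
def Undominated {n : ℕ} (m : Fin n → ℕ) (k : ℕ) : Prop :=
  ∀ c : Fin k → Vtx m, ∃ r, ∀ i, c i ≠ r ∧ ¬ (grid m).Adj (c i) r

variable {n k : ℕ} {m b : Fin n → ℕ}

lemma Undominated.mono {K : ℕ} (hk : k ≤ K) (v0 : Vtx m) (h : Undominated m K) :
    Undominated m k := by
  intro c
  obtain ⟨r, hr⟩ := h (fun i => if hi : (i : ℕ) < k then c ⟨i, hi⟩ else v0)
  refine ⟨r, fun i => ?_⟩
  have := hr ⟨i, i.isLt.trans_le hk⟩
  simpa using this

/-- Clamping to a smaller grid. -/
lemma Undominated.clamp (hb : ∀ i, 1 ≤ b i) (hbm : ∀ i, b i ≤ m i) (h : Undominated b k) :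
    Undominated m k := by
  intro c
  obtain ⟨r, hr⟩ := h (fun i j => ⟨min (c i j) (b j - 1), by have := hb j; omega⟩)
  refine ⟨fun j => ⟨r j, (r j).isLt.trans_le (hbm j)⟩, fun i => ?_⟩
  obtain ⟨h1, h2⟩ := hr i
  constructor
  · intro he
    apply h1
    funext j
    apply Fin.ext
    have := congrFun he j
    have h3 : (c i j : ℕ) = r j := by rw [this]
    have h4 := (r j).isLt
    simp only
    omega
  · rintro ⟨j, hj, hij⟩
    have hoth : ∀ j', j' ≠ j → (c i j' : ℕ) = r j' := fun j' hj' => by rw [hij j' hj']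
    have hj0 : (c i j : ℕ) + 1 = r j ∨ (r j : ℕ) + 1 = c i j := hj
    have h4 := (r j).isLt
    have hoth2 : ∀ j', j' ≠ j → min (c i j' : ℕ) (b j' - 1) = r j' := by
      intro j' hj'
      have := hoth j' hj'
      have h5 := (r j').isLt
      omega
    by_cases heq : min (c i j : ℕ) (b j - 1) = r j
    · apply h1
      funext j'
      apply Fin.ext
      by_cases hj' : j' = j
      · subst hj'; exact heq
      · exact hoth2 j' hj'
    · apply h2
      refine ⟨j, ?_, fun j' hj' => Fin.ext (hoth2 j' hj')⟩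
      simp only
      omega

lemma one_sub_fin_two : ∀ x y : Fin 2, ((x : ℕ) + 1 = y ∨ (y : ℕ) + 1 = x) → 1 - x = y := by
  decide

/-- The cube `{0,1}^n` is not dominated by `k` vertices if `k (n+1) < 2^n`. -/
lemma undominated_cube (h : k * (n + 1) < 2 ^ n) : Undominated (fun _ : Fin n => 2) k := by
  classical
  intro c
  by_contra hcon
  push Not at hcon
  have hcov : (Finset.univ : Finset (Vtx (fun _ : Fin n => 2))) ⊆
      Finset.univ.biUnion (fun i : Fin k => (Finset.univ : Finset (Option (Fin n))).image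
        (fun o => match o with
          | none => c i
          | some j => Function.update (c i) j (1 - c i j))) := by
    intro r _
    obtain ⟨i, hi⟩ := hcon r
    rw [Finset.mem_biUnion]
    refine ⟨i, Finset.mem_univ _, ?_⟩
    rw [Finset.mem_image]
    by_cases he : c i = r
    · exact ⟨none, Finset.mem_univ _, he⟩
    · obtain ⟨j, hj, hij⟩ := hi he
      refine ⟨some j, Finset.mem_univ _, ?_⟩
      funext j'
      by_cases hj' : j' = j
      · subst hj'
        simp only [Function.update_self]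
        have h1 := (r j').isLt
        have h2 := (c i j').isLt
        have h3 : (c i j' : ℕ) + 1 = r j' ∨ (r j' : ℕ) + 1 = c i j' := hj
        exact one_sub_fin_two _ _ h3
      · simp only [Function.update_of_ne hj']
        exact hij j' hj'
  have h1 := (Finset.card_le_card hcov).trans Finset.card_biUnion_le
  have h2 : ∀ i : Fin k, ((Finset.univ : Finset (Option (Fin n))).image
        (fun o => match o with
          | none => c i
          | some j => Function.update (c i) j (1 - c i j))).card ≤ n + 1 := by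
    intro i
    refine Finset.card_image_le.trans ?_
    simp
  have h3 := h1.trans (Finset.sum_le_sum fun i _ => h2 i)
  rw [Finset.sum_const, smul_eq_mul, Finset.card_univ, Finset.card_univ, Fintype.card_fin] at h3
  have h4 : Fintype.card (Vtx (fun _ : Fin n => 2)) = 2 ^ n := by
    simp [Vtx, Fintype.card_pi]
  omega

lemma sq_lt_two_pow {n : ℕ} (hn : 4 ≤ n) : (n + 1) ^ 2 < 2 * 2 ^ n := by
  induction n, hn using Nat.le_induction with
  | base => norm_num
  | succ n hn ih =>
    rw [pow_succ 2 n]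
    nlinarith

lemma half_mul_lt {n : ℕ} (hn : 4 ≤ n ∨ n = 2) : (n + 1) / 2 * (n + 1) < 2 ^ n := by
  rcases hn with hn | rfl
  · have h1 := sq_lt_two_pow hn
    have h2 : 2 * ((n + 1) / 2) ≤ n + 1 := by omega
    nlinarith
  · norm_num

lemma undominated_322 : Undominated (![3, 2, 2] : Fin 3 → ℕ) 2 := by
  intro c
  have key : ∀ q1 q2 : Vtx (![3, 2, 2] : Fin 3 → ℕ), ∃ r : Vtx (![3, 2, 2] : Fin 3 → ℕ),
      (q1 ≠ r ∧ ¬ (grid (![3, 2, 2] : Fin 3 → ℕ)).Adj q1 r) ∧
      (q2 ≠ r ∧ ¬ (grid (![3, 2, 2] : Fin 3 → ℕ)).Adj q2 r) := by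
    unfold Vtx
    decide +kernel
  obtain ⟨r, h1, h2⟩ := key (c 0) (c 1)
  refine ⟨r, fun i => ?_⟩
  fin_cases i
  · exact h1
  · exact h2

lemma undominated_232 : Undominated (![2, 3, 2] : Fin 3 → ℕ) 2 := by
  intro c
  have key : ∀ q1 q2 : Vtx (![2, 3, 2] : Fin 3 → ℕ), ∃ r : Vtx (![2, 3, 2] : Fin 3 → ℕ),
      (q1 ≠ r ∧ ¬ (grid (![2, 3, 2] : Fin 3 → ℕ)).Adj q1 r) ∧
      (q2 ≠ r ∧ ¬ (grid (![2, 3, 2] : Fin 3 → ℕ)).Adj q2 r) := by
    unfold Vtx
    decide +kernel
  obtain ⟨r, h1, h2⟩ := key (c 0) (c 1)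
  refine ⟨r, fun i => ?_⟩
  fin_cases i
  · exact h1
  · exact h2

lemma undominated_223 : Undominated (![2, 2, 3] : Fin 3 → ℕ) 2 := by
  intro c
  have key : ∀ q1 q2 : Vtx (![2, 2, 3] : Fin 3 → ℕ), ∃ r : Vtx (![2, 2, 3] : Fin 3 → ℕ),
      (q1 ≠ r ∧ ¬ (grid (![2, 2, 3] : Fin 3 → ℕ)).Adj q1 r) ∧
      (q2 ≠ r ∧ ¬ (grid (![2, 2, 3] : Fin 3 → ℕ)).Adj q2 r) := by
    unfold Vtx
    decide +kernel
  obtain ⟨r, h1, h2⟩ := key (c 0) (c 1)
  refine ⟨r, fun i => ?_⟩
  fin_cases i
  · exact h1
  · exact h2

lemma undominated_three {m : Fin 3 → ℕ} (hm : ∀ i, 2 ≤ m i) (h : ∃ i, m i ≠ 2) :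
    Undominated m 2 := by
  obtain ⟨i, hi⟩ := h
  have h3 : 3 ≤ m i := by have := hm i; omega
  have h0 := hm 0
  have h1 := hm 1
  have h2 := hm 2
  fin_cases i
  · refine Undominated.clamp (b := ![3, 2, 2]) ?_ ?_ undominated_322
    · intro j; fin_cases j <;> simp
    · intro j; fin_cases j
      · exact h3
      · exact h1
      · exact h2
  · refine Undominated.clamp (b := ![2, 3, 2]) ?_ ?_ undominated_232
    · intro j; fin_cases j <;> simp
    · intro j; fin_cases j
      · exact h0
      · exact h3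
      · exact h2
  · refine Undominated.clamp (b := ![2, 2, 3]) ?_ ?_ undominated_223
    · intro j; fin_cases j <;> simp
    · intro j; fin_cases j
      · exact h0
      · exact h1
      · exact h3

/-- Long paths are not dominated by one vertex. -/
lemma undominated_one {m : Fin 1 → ℕ} (h : ∃ i, ¬ m i ≤ 3) : Undominated m 1 := by
  obtain ⟨i, hi⟩ := h
  have hi0 : i = 0 := Subsingleton.elim _ _
  subst hi0
  intro c
  rcases le_or_gt 2 ((c 0 0 : Fin (m 0)) : ℕ) with h2 | h2
  · refine ⟨fun j => ⟨(c 0 0 : ℕ) - 2, ?_⟩, fun i => ?_⟩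
    · have hj0 : j = 0 := Subsingleton.elim _ _
      subst hj0
      have := (c 0 0).isLt
      omega
    · have hi0 : i = 0 := Subsingleton.elim _ _
      subst hi0
      constructor
      · intro he
        have := congrArg Fin.val (congrFun he 0)
        simp only at this
        omega
      · rintro ⟨j, hj, -⟩
        have hj0 : j = 0 := Subsingleton.elim _ _
        subst hj0
        simp only at hj
        omega
  · refine ⟨fun j => ⟨(c 0 0 : ℕ) + 2, ?_⟩, fun i => ?_⟩
    · have hj0 : j = 0 := Subsingleton.elim _ _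
      subst hj0
      omega
    · have hi0 : i = 0 := Subsingleton.elim _ _
      subst hi0
      constructor
      · intro he
        have := congrArg Fin.val (congrFun he 0)
        simp only at this
        omega
      · rintro ⟨j, hj, -⟩
        have hj0 : j = 0 := Subsingleton.elim _ _
        subst hj0
        simp only at hj
        omega

/-- In an undominated grid few cops do not win. -/
lemma lower_of_undominated (hm : ∀ i, 2 ≤ m i) (hk : k ≤ (n + 1) / 2) (h : Undominated m k)
    (c : Fin k → Vtx m) : ∃ r, ¬ CopsWin (grid m) (fun i => some (c i)) r := by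
  obtain ⟨r, hr⟩ := h c
  refine ⟨r, fun hw => not_copsWin hm hk hw ?_⟩
  intro i v hv
  have hv' : c i = v := Option.some.inj hv
  subst hv'
  exact hr i

/-- If the cops dominate the graph they win at once. -/
lemma copsWin_of_dominating {V : Type*} {G : SimpleGraph V} {c : Fin k → V} {r : V}
    (h : ∃ i, c i = r ∨ G.Adj (c i) r) : CopsWin G (fun i => some (c i)) r := by
  classical
  obtain ⟨i, hi⟩ := h
  rcases hi with hi | hi
  · exact CopsWin.capture (c' := fun i => some (c i)) (i := i) (fun j => Or.inl rfl)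
      (by simp [hi])
  · refine CopsWin.capture (c' := Function.update (fun i => some (c i)) i (some r)) (i := i)
      (fun j => ?_) (by simp)
    by_cases hj : j = i
    · subst hj
      exact Or.inr ⟨c j, r, rfl, by simp, hi⟩
    · exact Or.inl (by simp [hj])

end Pool.Agent.Lib.MP_cd85a3_co
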