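import Mathlib
import Pool.Agent.Lib.MP_cd85a3_co.Start

/-!
# The attacking cop number of every grid
-/

set_option autoImplicit false

namespace Pool.Agent.Lib.MP_cd85a3_co

open Finset

variable {n k : ℕ} {m : Fin n → ℕ}

/-- `K` cops win, so the attacking cop number is at most `K`. -/
lemma attackingCopNumber_le {V : Type*} {G : SimpleGraph V} {K : ℕ}
    (h : ∃ c : Fin K → V, ∀ r, CopsWin G (fun i => some (c i)) r) :
    attackingCopNumber G ≤ K := Nat.sInf_le h

lemma value_eq {V : Type*} {G : SimpleGraph V} {K : ℕ}
    (h1 : ∃ c : Fin K → V, ∀ r, CopsWin G (fun i => some (c i)) r)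
    (h2 : ∀ k < K, ∀ c : Fin k → V, ∃ r, ¬ CopsWin G (fun i => some (c i)) r) :
    attackingCopNumber G = K := by
  refine le_antisymm (Nat.sInf_le h1) (le_csInf ⟨K, h1⟩ ?_)
  rintro k ⟨c, hc⟩
  by_contra hlt
  obtain ⟨r, hr⟩ := h2 k (by omega) c
  exact hr (hc r)

/-- The vertex with all coordinates `0`. -/
def origin (hm : ∀ i, 2 ≤ m i) : Vtx m := fun i => ⟨0, by have := hm i; omega⟩

lemma upper_value (hn : 1 ≤ n) (hm : ∀ i, 2 ≤ m i) :
    ∃ c : Fin ((n + 1) / 2 + 1) → Vtx m, ∀ r, CopsWin (grid m) (fun i => some (c i)) r := by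
  obtain ⟨h, hh⟩ : ∃ h, (n + 1) / 2 = h + 1 := ⟨(n + 1) / 2 - 1, by omega⟩
  rw [hh]
  exact ⟨fun _ => origin hm, fun r => upper (by omega) (origin hm) r⟩

lemma value_generic (hn : 1 ≤ n) (hm : ∀ i, 2 ≤ m i) (h : Undominated m ((n + 1) / 2)) :
    attackingCopNumber (grid m) = (n + 1) / 2 + 1 := by
  refine value_eq (upper_value hn hm) fun k hk c => ?_
  exact lower_of_undominated hm (by omega) (h.mono (by omega) (origin hm)) c

/-- The value of the attacking cop number on every grid. -/
theorem value (hn : 1 ≤ n) (hm : ∀ i, 2 ≤ m i) :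
    attackingCopNumber (grid m) =
      if n = 1 ∧ ∀ i, m i ≤ 3 then 1
      else if n = 3 ∧ ∀ i, m i = 2 then 2
      else (n + 1) / 2 + 1 := by
  by_cases h1 : n = 1
  · subst h1
    by_cases h3 : ∀ i, m i ≤ 3
    · rw [if_pos ⟨rfl, h3⟩]
      refine value_eq ⟨fun _ j => ⟨1, by have := hm j; omega⟩, fun r => ?_⟩ ?_
      · refine copsWin_of_dominating ⟨0, ?_⟩
        have hr := (r 0).isLt
        have h30 := h3 0
        by_cases hr1 : ((r 0 : Fin (m 0)) : ℕ) = 1
        · left
          funext j
          have hj : j = 0 := Subsingleton.elim _ _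
          subst hj
          exact Fin.ext hr1.symm
        · right
          refine ⟨0, ?_, fun j hj => absurd (Subsingleton.elim _ _) hj⟩
          simp only
          omega
      · intro k hk c
        have hk0 : k = 0 := by omega
        subst hk0
        refine lower_of_undominated hm (by omega) ?_ c
        intro c
        exact ⟨origin hm, fun i => i.elim0⟩
    · rw [if_neg (fun h => h3 h.2), if_neg (fun h => by omega)]
      refine value_generic hn hm ?_
      push Not at h3
      obtain ⟨i, hi⟩ := h3
      exact undominated_one ⟨i, by omega⟩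
  · rw [if_neg (fun h => h1 h.1)]
    by_cases h3 : n = 3
    · subst h3
      by_cases h2 : ∀ i, m i = 2
      · rw [if_pos ⟨rfl, h2⟩]
        have hm2 : m = fun _ => 2 := funext h2
        subst hm2
        refine value_eq ⟨![fun _ => 0, fun _ => 1], fun r => ?_⟩ ?_
        · refine copsWin_of_dominating ?_
          revert r
          decide +kernel
        · intro k hk c
          refine lower_of_undominated hm (by omega) (undominated_cube ?_) c
          omega
      · rw [if_neg (fun h => h2 h.2)]
        refine value_generic hn hm ?_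
        push Not at h2
        exact undominated_three hm h2
    · rw [if_neg (fun h => h3 h.1)]
      refine value_generic hn hm ?_
      refine Undominated.clamp (b := fun _ => 2) (fun _ => by omega) hm (undominated_cube ?_)
      exact half_mul_lt (by omega)

end Pool.Agent.Lib.MP_cd85a3_co
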